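import Pool.Agent.H92.EHD.TK
import Pool.Agent.H88.EQ.LD

/-!
Row ELD of the board `ehd_modules`.
-/

namespace Pool.Agent.H53.EHD

open Pool.Agent.H92.EQ Pool.Agent.H92.EHD Pool.Agent.H88.EQ.LDrow
open scoped BigOperators ComplexConjugate ContDiff Topology Nat
open MeasureTheory

noncomputable section

/-- `1 + s X` is bounded below. -/
theorem hlowB {N : ℕ} {X : Matrix (Fin N) (Fin N) ℂ} {τ s : ℝ} (hτ : 0 ≤ τ)
    (hX : ∀ i j, ‖X i j‖ ≤ τ) (hN : N * τ ≤ 1 / 2) (hs : 0 ≤ s) (hs1 : s ≤ 1)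
    (v : Fin N → ℂ) : ‖v‖ / 2 ≤ ‖(1 + (s : ℂ) • X).mulVec v‖ := by
  have h1 : (1 + (s : ℂ) • X).mulVec v = v + (s : ℂ) • X.mulVec v := by
    simp only [Matrix.add_mulVec, Matrix.one_mulVec, Matrix.smul_mulVec]
  have h2 : ‖(s : ℂ) • X.mulVec v‖ ≤ ‖v‖ / 2 := by
    rw [norm_smul, Complex.norm_real, Real.norm_of_nonneg hs]
    calc s * ‖X.mulVec v‖ ≤ 1 * (N * τ * ‖v‖) :=
          mul_le_mul hs1 (norm_mulVec_le hτ hX v) (norm_nonneg _) zero_le_one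
      _ ≤ 1 * (1 / 2 * ‖v‖) := by
          refine mul_le_mul_of_nonneg_left ?_ zero_le_one
          exact mul_le_mul_of_nonneg_right hN (norm_nonneg _)
      _ = ‖v‖ / 2 := by ring
  rw [h1]
  have h3 : ‖v‖ - ‖(s : ℂ) • X.mulVec v‖ ≤ ‖v + (s : ℂ) • X.mulVec v‖ :=
    norm_sub_le_norm_add _ _
  linarith

theorem detB_ne {N : ℕ} {X : Matrix (Fin N) (Fin N) ℂ} {τ s : ℝ} (hτ : 0 ≤ τ)
    (hX : ∀ i j, ‖X i j‖ ≤ τ) (hN : N * τ ≤ 1 / 2) (hs : 0 ≤ s) (hs1 : s ≤ 1) :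
    (1 + (s : ℂ) • X).det ≠ 0 := by
  intro h0
  obtain ⟨v, hv, hv0⟩ := Matrix.exists_mulVec_eq_zero_iff.mpr h0
  have h1 := hlowB hτ hX hN hs hs1 v
  rw [hv0, norm_zero] at h1
  have h2 : 0 < ‖v‖ := norm_pos_iff.mpr hv
  linarith

theorem mulVec_cons0 {k : ℕ} (M : Matrix (Fin (k + 1)) (Fin (k + 1)) ℂ)
    (h : ∀ j : Fin k, M 0 j.succ = 0) (v : Fin k → ℂ) :
    M.mulVec (Fin.cons 0 v : Fin (k + 1) → ℂ) = (Fin.cons 0 ((low M).mulVec v) :
      Fin (k + 1) → ℂ) := by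
  funext i
  refine Fin.cases ?_ (fun i => ?_) i
  · simp [Matrix.mulVec, dotProduct, Fin.sum_univ_succ, h]
  · simp [Matrix.mulVec, dotProduct, Fin.sum_univ_succ, low]

theorem norm_cons0 {k : ℕ} (v : Fin k → ℂ) : ‖(Fin.cons 0 v : Fin (k + 1) → ℂ)‖ ≤ ‖v‖ := by
  rw [pi_norm_le_iff_of_nonneg (norm_nonneg _)]
  intro i
  refine Fin.cases ?_ (fun i => ?_) i
  · simp
  · simpa using norm_le_pi_norm v i

theorem pf_ELD : T_ELD := by
  intro k
  refine ⟨2 * (k + 1) ^ 2 * k * k ! + 1, by positivity, ?_⟩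
  intro P A y M ρ τ s hM hρ hρ1 hτ hτ1 hs hs1 hy hA0 hP0 hA hP hdet
  have hKr : (0 : ℝ) < (k : ℝ) + 1 := by positivity
  have hNτ : ((k + 1 : ℕ) : ℝ) * τ ≤ 1 / 2 := by
    push_cast
    calc ((k : ℝ) + 1) * τ ≤ ((k : ℝ) + 1) * (1 / (2 * ((k : ℝ) + 1))) :=
          mul_le_mul_of_nonneg_left hτ1 hKr.le
      _ = 1 / 2 := by field_simp
  have hkτ : (k : ℝ) * τ ≤ 1 / 2 := by
    push_cast at hNτ
    linarith
  have hX : ∀ i j, ‖(A - 1) i j‖ ≤ τ := hA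
  refine ⟨detB_ne hτ hX hNτ hs hs1, ?_⟩
  have hyn : 0 < nrm y := nrm_pos hy
  have hyc : ((nrm y : ℝ) : ℂ) ≠ 0 := by exact_mod_cast hyn.ne'
  -- the blocks
  let X : Matrix (Fin k) (Fin k) ℂ := low (A - 1)
  have hX' : ∀ i j, ‖X i j‖ ≤ τ := fun i j => hX _ _
  let B : Matrix (Fin k) (Fin k) ℂ := 1 + (s : ℂ) • X
  have hBdet : B.det ≠ 0 := detB_ne hτ hX' hkτ hs hs1
  have hB0 : ∀ j : Fin k, (1 + (s : ℂ) • (A - 1)) 0 j.succ = 0 := by
    intro j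
    have h1 : A 0 j.succ = 0 := by
      rw [hA0]
      exact Matrix.one_apply_ne (Fin.succ_ne_zero j).symm
    simp [Matrix.add_apply, Matrix.smul_apply, h1, (Fin.succ_ne_zero j).symm]
  have hlowBB : low (1 + (s : ℂ) • (A - 1)) = B := by
    ext i j
    simp [low, B, X, Matrix.one_apply]
  let P' : Matrix (Fin k) (Fin k) ℂ := ((nrm y : ℝ) : ℂ)⁻¹ • low P
  have hPP' : low P = ((nrm y : ℝ) : ℂ) • P' := by
    simp only [P', smul_smul, mul_inv_cancel₀ hyc, one_smul]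
  have hP' : ∀ i j, ‖P' i j‖ ≤ M := by
    intro i j
    simp only [P', Matrix.smul_apply, smul_eq_mul, norm_mul, norm_inv, Complex.norm_real,
      Real.norm_of_nonneg hyn.le]
    rw [inv_mul_le_iff₀ hyn]
    calc ‖low P i j‖ ≤ M * nrm y := hP _ _
      _ = nrm y * M := mul_comm _ _
  have hdet' : ρ ≤ ‖P'.det‖ := by
    simp only [P']
    rw [Matrix.det_smul, Fintype.card_fin, norm_mul, norm_pow, norm_inv, Complex.norm_real,
      Real.norm_of_nonneg hyn.le, inv_pow, le_inv_mul_iff₀ (by positivity)]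
    calc nrm y ^ k * ρ = ρ * nrm y ^ k := mul_comm _ _
      _ ≤ ‖(low P).det‖ := hdet
  have hdet0 : P'.det ≠ 0 := by
    intro h0
    rw [h0, norm_zero] at hdet'
    linarith
  let r : Fin k → ℂ := fun i => (A - 1).mulVec y i.succ
  let w : Fin k → ℂ := B⁻¹.mulVec r
  have hBu : IsUnit B.det := isUnit_iff_ne_zero.mpr hBdet
  have hPu : IsUnit P'.det := isUnit_iff_ne_zero.mpr hdet0
  have hw : B.mulVec w = r := by
    simp only [w]
    rw [Matrix.mulVec_mulVec, Matrix.mul_nonsing_inv B hBu, Matrix.one_mulVec]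
  have hr : ‖r‖ ≤ (k + 1) * τ * ‖y‖ := by
    have h2 : ‖(A - 1).mulVec y‖ ≤ ((k + 1 : ℕ) : ℝ) * τ * ‖y‖ := norm_mulVec_le hτ hX y
    push_cast at h2
    refine le_trans ?_ h2
    rw [pi_norm_le_iff_of_nonneg (norm_nonneg _)]
    intro i
    exact norm_le_pi_norm ((A - 1).mulVec y) i.succ
  have hwn : ‖w‖ ≤ 2 * ((k + 1) * τ * ‖y‖) := by
    have h1 := hlowB hτ hX' hkτ hs hs1 w
    change ‖w‖ / 2 ≤ ‖B.mulVec w‖ at h1
    rw [hw] at h1
    linarith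
  let η : Fin k → ℂ := P'⁻¹.mulVec w
  let ξ' : Fin k → ℂ := ((nrm y : ℝ) : ℂ)⁻¹ • η
  have hη : P'.mulVec η = w := by
    simp only [η]
    rw [Matrix.mulVec_mulVec, Matrix.mul_nonsing_inv P' hPu, Matrix.one_mulVec]
  have hηn : ‖η‖ ≤ k * (k ! * M ^ k / ρ) * ‖w‖ := by
    refine norm_mulVec_le (by positivity) (fun i j => ?_) w
    rw [Matrix.inv_def, Ring.inverse_eq_inv', Matrix.smul_apply, smul_eq_mul, norm_mul, norm_inv]
    calc ‖P'.det‖⁻¹ * ‖P'.adjugate i j‖ ≤ ρ⁻¹ * (k ! * M ^ k) := by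
          refine mul_le_mul (inv_anti₀ hρ hdet') (adj_le hM hP' i j) (norm_nonneg _)
            (by positivity)
      _ = k ! * M ^ k / ρ := by ring
  refine ⟨(Fin.cons 0 ξ' : Fin (k + 1) → ℂ), ?_, ?_⟩
  · have h1 : (low P).mulVec ξ' = w := by
      rw [hPP']
      simp only [ξ']
      rw [Matrix.smul_mulVec, Matrix.mulVec_smul, smul_smul, mul_inv_cancel₀ hyc, one_smul, hη]
    rw [← Matrix.mulVec_mulVec, mulVec_cons0 P hP0, h1, mulVec_cons0 _ hB0, hlowBB, hw]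
    funext i
    refine Fin.cases ?_ (fun i => ?_) i
    · have h2 : ∀ j, (A - 1) 0 j = 0 := by
        intro j
        rw [Matrix.sub_apply, hA0, sub_self]
      rw [Fin.cons_zero]
      simp [Matrix.mulVec, dotProduct, h2]
    · rw [Fin.cons_succ]
  · have hξn : ‖ξ'‖ = (nrm y)⁻¹ * ‖η‖ := by
      simp only [ξ']
      rw [norm_smul, norm_inv, Complex.norm_real, Real.norm_of_nonneg hyn.le]
    have hc : 0 ≤ (k : ℝ) * (k ! * M ^ k / ρ) := by positivity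
    have hyy : (nrm y)⁻¹ * ‖y‖ ≤ 1 := by
      rw [inv_mul_le_iff₀ hyn, mul_one]
      exact le_nrm y
    have hM0 : 0 ≤ M := by linarith
    calc nrm (Fin.cons 0 ξ' : Fin (k + 1) → ℂ)
        ≤ ((k + 1 : ℕ) : ℝ) * ‖(Fin.cons 0 ξ' : Fin (k + 1) → ℂ)‖ := nrm_le _
      _ ≤ ((k : ℝ) + 1) * ‖ξ'‖ := by
          push_cast
          exact mul_le_mul_of_nonneg_left (norm_cons0 ξ') hKr.le
      _ = (k + 1) * ((nrm y)⁻¹ * ‖η‖) := by rw [hξn]
      _ ≤ (k + 1) * ((nrm y)⁻¹ * (k * (k ! * M ^ k / ρ) * (2 * ((k + 1) * τ * ‖y‖)))) := by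
          refine mul_le_mul_of_nonneg_left ?_ hKr.le
          refine mul_le_mul_of_nonneg_left ?_ (by positivity)
          exact hηn.trans (mul_le_mul_of_nonneg_left hwn hc)
      _ = (2 * (k + 1) ^ 2 * k * k !) * (M ^ k / ρ * τ) * ((nrm y)⁻¹ * ‖y‖) := by ring
      _ ≤ (2 * (k + 1) ^ 2 * k * k !) * (M ^ k / ρ * τ) * 1 := by
          refine mul_le_mul_of_nonneg_left hyy ?_
          positivity
      _ ≤ (2 * (k + 1) ^ 2 * k * k ! + 1) * (M ^ k / ρ * τ) := by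
          rw [mul_one]
          refine mul_le_mul_of_nonneg_right (by linarith) ?_
          positivity
      _ = (2 * (k + 1) ^ 2 * k * k ! + 1) * M ^ k / ρ * τ := by ring

end

end Pool.Agent.H53.EHD
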