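import Pool.Agent.H92.EHD.TK
import Pool.Agent.H14.EQ.TI

/-!
Row ETI of the board `ehd_modules`.
-/

set_option autoImplicit false

namespace Pool.Agent.H53.EHD

open scoped BigOperators ComplexConjugate ContDiff ComplexOrder
open MeasureTheory
open Pool.Agent.H92.EQ Pool.Agent.H92.EHD Pool.Agent.H14.EQ

theorem pf_ETI (hW6 : T_W6) (hA1 : T_A1) (hTB : T_TB) (hTC : T_TC) (hTD : T_TD) (hTF : T_TF)
    (hTN : T_TN) (hL1 : T_L1) (hL3 : T_L3) (hL6 : T_L6) : T_ETI := by
  intro N p q D Φ S w w' u X i j t1 C1 hN hD hΦ hS hw hw' hu hdt hC1 m m' hm hm'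
  subst hm
  subst hm'
  have hN0 : 0 < N := by omega
  have hD0 : 0 < (D : ℝ) := by exact_mod_cast hD
  have hV : IsOpen ({t1}ᶜ : Set ℂ) := isOpen_compl_singleton
  have hG1 : ∀ (l : ℂ) (z : Fin (N + 1) → ℂ),
      ev (GP Φ X i j) (ct (z 0) (l • tl z)) = l ^ D • ev (GP Φ X i j) z := by
    intro l z
    rw [ev_GP', ev_GP']
    have h1 : tl (ct (z 0) (l • tl z)) = l • tl z := rfl
    have h2 : ct (z 0) (l • tl z) 0 = z 0 := rfl
    rw [h1, h2, ev_smul hΦ, Matrix.mulVec_smul]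
  have hG2 : ∀ z ∈ WV N ({t1}ᶜ : Set ℂ), ev (GP Φ X i j) z ≠ 0 := by
    intro z hz h0
    rw [ev_GP'] at h0
    exact hz.2 (hΦ.nd _ (Matrix.eq_zero_of_mulVec_eq_zero (hdt _ hz.1) h0))
  obtain ⟨hFT, -, -⟩ := hTB N p D {t1}ᶜ (GP Φ X i j) S hV hD hG1 hG2 hS
  have hLw : LH 1 w := (hL1 N 1 1 1 1 w w).2.2.1 hw
  have hLw' : LH 1 w' := (hL1 N 1 1 1 1 w' w').2.2.1 hw'
  have hLu : ∀ k, LH 1 (u k) := fun k => (hL1 N 1 1 1 1 (u k) (u k)).2.2.1 (hu k)
  have hL0 : LH 0 (fun z => w z - w' z) := by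
    have h1 := (hL1 N 1 1 1 (-1) w w').1 hLw hLw'
    have h2 : (fun z => (1 : ℝ) * w z + -1 * w' z) = fun z => w z - w' z := by
      funext z
      ring
    rw [h2] at h1
    have h3 : (1 : ℝ) * 1 + -1 * 1 = 0 := by norm_num
    rwa [h3] at h1
  have hhom : Hom0 (fun z => w z - w' z) := (hL1 N 0 0 0 0 (fun z => w z - w' z) w').2.1.2 hL0
  obtain ⟨B0, hB0, hBb⟩ := (hL6 N).1 (fun z => w z - w' z) hhom.smooth.continuousOn
    (fun r z hr hz => hhom.hom (r : ℂ) z (by exact_mod_cast hr.ne') hz)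
  obtain ⟨hcont, hbd, hmass⟩ :=
    hTN N p q D Φ S (fun z => w z - w' z) u B0 hN hD hΦ hS hhom hu hBb
  -- one potential in the first slot
  have part : ∀ u0 : (Fin N → ℂ) → ℝ, Pot u0 → ∃ (F : ℂ → ℝ) (C : ℝ),
      (∀ t, t ≠ t1 → 0 ≤ mT (pull (GP Φ X i j) S)
        (fun k z => (Fin.cons u0 u : Fin (q + 1) → (Fin N → ℂ) → ℝ) k (tl z)) t) ∧
      ContinuousOn (mT (pull (GP Φ X i j) S)
        (fun k z => (Fin.cons u0 u : Fin (q + 1) → (Fin N → ℂ) → ℝ) k (tl z))) {t1}ᶜ ∧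
      ContinuousOn F {t1}ᶜ ∧
      (∀ t, t ≠ t1 → |F t| ≤ (q + 1) * N * ((D : ℝ) ^ p / D) * mass q S *
        |Real.log ‖t - t1‖| + C) ∧
      Weak {t1}ᶜ F (mT (pull (GP Φ X i j) S)
        (fun k z => (Fin.cons u0 u : Fin (q + 1) → (Fin N → ℂ) → ℝ) k (tl z))) := by
    intro u0 hu0
    have hPot : ∀ k, Pot ((Fin.cons u0 u : Fin (q + 1) → (Fin N → ℂ) → ℝ) k) := by
      intro k
      refine Fin.cases ?_ (fun k => ?_) k
      · exact hu0
      · exact hu k
    choose B hB hBk using fun k => pot_bound hD hL1 hL3 hL6 hΦ (hPot k)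
    have hBs : ∀ k, B k ≤ ∑ k, B k := fun k =>
      Finset.single_le_sum (fun k _ => (hB k).le) (Finset.mem_univ k)
    obtain ⟨k1, k2, F, k3, k4, k5⟩ := hTF N p q D {t1}ᶜ (GP Φ X i j) S
      (Fin.cons u0 u : Fin (q + 1) → (Fin N → ℂ) → ℝ)
      (fun t => (∑ k, B k) + (1 / (D : ℝ)) * (N * |Real.log ‖t - t1‖| + C1))
      hN hV hD hG1 hG2 hS hPot (by
        intro t ht x hx k
        have e1 : ev (GP Φ X i j) (ct t x) = (Matrix.of (rep X i j t)).mulVec (ev Φ x) :=
          ev_GP' Φ X i j (ct t x)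
        have e2 : ev Φ x ≠ 0 := fun h => hx (hΦ.nd x h)
        have e3 := hC1 t ht (ev Φ x) e2
        have e4 := hBk k x hx
        rw [e1]
        have e5 : (Fin.cons u0 u : Fin (q + 1) → (Fin N → ℂ) → ℝ) k x -
            1 / (D : ℝ) * ell ((Matrix.of (rep X i j t)).mulVec (ev Φ x)) =
            ((Fin.cons u0 u : Fin (q + 1) → (Fin N → ℂ) → ℝ) k x -
              1 / (D : ℝ) * ell (ev Φ x)) -
            1 / (D : ℝ) * (ell ((Matrix.of (rep X i j t)).mulVec (ev Φ x)) -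
              ell (ev Φ x)) := by ring
        rw [e5]
        refine (abs_sub _ _).trans (add_le_add (e4.trans (hBs k)) ?_)
        rw [abs_mul, abs_of_pos (by positivity : (0 : ℝ) < 1 / D)]
        exact mul_le_mul_of_nonneg_left e3 (by positivity))
    refine ⟨F, (q + 1) * ((∑ k, B k) + C1 / D) * ((D : ℝ) ^ p * mass q S), fun t ht => k1 t ht,
      k2, k3, fun t ht => ?_, k5⟩
    refine (k4 t ht).trans (le_of_eq ?_)
    have e6 : mass q (res (pull (GP Φ X i j) S) t) = (D : ℝ) ^ p * mass q S := by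
      rw [res_pull]
      exact (hmass (Matrix.of (rep X i j t)) (hdt t ht)).2
    rw [e6]
    field_simp
    ring
  obtain ⟨F, C, a1, a2, a3, a4, a5⟩ := part w hw
  obtain ⟨F', C', b1, b2, b3, b4, b5⟩ := part w' hw'
  refine ⟨F, F', max C C', fun t ht => ⟨a1 t ht, b1 t ht⟩, a2, b2, a3, b3,
    fun t ht => (a4 t ht).trans (add_le_add_right (le_max_left _ _) _),
    fun t ht => (b4 t ht).trans (add_le_add_right (le_max_right _ _) _), a5, b5, ?_, ?_⟩
  · refine hcont.comp (Continuous.continuousOn ?_) fun t ht => hdt t ht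
    unfold rep
    exact continuous_const.update i (continuous_const.update j continuous_id)
  · have hWk := hTD N p q {t1}ᶜ (pull (GP Φ X i j) S) (fun z => w (tl z) - w' (tl z))
      (fun k z => u k (tl z)) (fun _ => 1) hN hV hFT (lht_tl hL0) (fun k => lht_tl (hLu k))
    intro f hf
    have e1 := hWk f hf
    have e2 : ∀ t, pair (fun x => w (tl (ct t x)) - w' (tl (ct t x)))
        (res (pull (GP Φ X i j) S) t) (fun k x => u k (tl (ct t x))) =
        am (fun z => w z - w' z) Φ S u (Matrix.of (rep X i j t)) := by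
      intro t
      rw [res_pull]
      rfl
    simp only [e2] at e1
    rw [e1]
    refine integral_congr_ae (Filter.Eventually.of_forall fun t => ?_)
    by_cases ht : t ∈ ({t1}ᶜ : Set ℂ)
    · have e3 := mT_sub (p := p) hN0 hW6 hA1 hTC hV (pull (GP Φ X i j) S) hFT
        (lht_tl (V := {t1}ᶜ) hLw) (lht_tl (V := {t1}ᶜ) hLw') (fun k z => u k (tl z))
        (fun _ => 1) (fun k => lht_tl (hLu k)) ht
      have e4 : ∀ v0 : (Fin N → ℂ) → ℝ,
          (Fin.cons (fun z => v0 (tl z)) (fun k z => u k (tl z)) :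
            Fin (q + 1) → (Fin (N + 1) → ℂ) → ℝ) =
          fun k z => (Fin.cons v0 u : Fin (q + 1) → (Fin N → ℂ) → ℝ) k (tl z) := by
        intro v0
        funext k z
        refine Fin.cases ?_ (fun k => ?_) k
        · rfl
        · rfl
      rw [e4 w, e4 w'] at e3
      simp only
      rw [← e3]
    · have e5 : f t = 0 := by
        by_contra hne
        exact ht (hf.sub (subset_tsupport f hne))
      simp only [e5, zero_mul]

end Pool.Agent.H53.EHD
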